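import Pool.Agent.R425.MK.Lim

/-!
# One sequence of radii for countably many thin families of balls: dimension and measure
-/

set_option autoImplicit false

namespace Pool.Agent.Helper93.ZP

open Filter Topology MeasureTheory

/-- For countably many families `Bad j n` (`n` the degree) for which the sums of `h ^ (-s n * t j)`
converge there are constants `c n > 0` such that for all `j` the sum of `(c n * h ^ (-s n)) ^ t j` over
all degrees converges. -/
theorem choose_c {P : Type} (Bad : ℕ → ℕ → Set P) (h : P → ℝ)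
    (h1 : ∀ p, 1 ≤ h p) (s t : ℕ → ℝ) (ht : ∀ j, 0 < t j)
    (hsum : ∀ j n, Summable (fun p : Bad j n => (h p.1) ^ (-(s n * t j)))) :
    ∃ c : ℕ → ℝ, (∀ n, 0 < c n) ∧ ∀ j : ℕ, Summable fun q : Σ n, Bad j n =>
      (c q.1 * (h q.2.1) ^ (-(s q.1))) ^ (t j) := by
  have hpos : ∀ p, 0 < h p := fun p => lt_of_lt_of_le one_pos (h1 p)
  set S : ℕ → ℕ → ℝ := fun j n => ∑' p : Bad j n, (h p.1) ^ (-(s n * t j)) with hS
  have hS0 : ∀ j n, 0 ≤ S j n := fun j n => tsum_nonneg fun p => Real.rpow_nonneg (hpos _).le _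
  have hex : ∀ n : ℕ, ∃ c : ℝ, 0 < c ∧ ∀ j ∈ Finset.range (n + 1),
      c ^ (t j) * S j n ≤ (1 / 2) ^ n := by
    intro n
    have hev : ∀ᶠ c in 𝓝[>] (0 : ℝ), ∀ j ∈ Finset.range (n + 1),
        c ^ (t j) * S j n ≤ (1 / 2) ^ n := by
      rw [Filter.eventually_all_finset]
      intro j _
      have h2 : Tendsto (fun c : ℝ => c ^ (t j) * S j n) (𝓝 0)
          (𝓝 (0 ^ (t j) * S j n)) := by
        refine Tendsto.mul_const _ ?_
        exact Tendsto.rpow_const tendsto_id (Or.inr (ht j).le)
      rw [Real.zero_rpow (ht j).ne', zero_mul] at h2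
      exact (h2.mono_left nhdsWithin_le_nhds).eventually (ge_mem_nhds (by positivity))
    obtain ⟨c, hc1, hc2⟩ := (hev.and self_mem_nhdsWithin).exists
    exact ⟨c, hc2, hc1⟩
  choose c hc0 hc1 using hex
  refine ⟨c, hc0, fun j => ?_⟩
  have hterm : ∀ (n : ℕ) (p : Bad j n), (c n * (h p.1) ^ (-(s n))) ^ (t j) =
      (c n) ^ (t j) * (h p.1) ^ (-(s n * t j)) := by
    intro n p
    have h2 := hc0 n
    have h3 := hpos p.1
    rw [Real.mul_rpow (by positivity) (by positivity), ← Real.rpow_mul h3.le, neg_mul]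
  rw [summable_sigma_of_nonneg (fun q => by
    have h2 := hc0 q.1
    have h3 := hpos q.2.1
    positivity)]
  constructor
  · intro n
    refine ((hsum j n).mul_left ((c n) ^ (t j))).congr fun p => ?_
    rw [hterm]
  · have hg : Summable fun n : ℕ => ((1 : ℝ) / 2) ^ n := summable_geometric_two
    refine Summable.of_norm_bounded_eventually_nat hg ?_
    filter_upwards [eventually_ge_atTop j] with n hn
    have he : ∑' y : Bad j n, (c n * (h y.1) ^ (-(s n))) ^ (t j) =
        (c n) ^ (t j) * S j n := by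
      rw [hS, ← tsum_mul_left]
      exact tsum_congr fun p => hterm n p
    simp only [he]
    rw [Real.norm_of_nonneg (mul_nonneg (Real.rpow_nonneg (hc0 n).le _) (hS0 j n))]
    exact hc1 n j (Finset.mem_range.2 (by omega))

/-- Balls with a convergent sum of the `D`-th powers of the radii: the dimension of the limsup set. -/
theorem dimH_of_summable {X : Type} [MetricSpace X] {ι : Type} [Countable ι] (y : ι → X)
    (r : ι → ℝ) (hr : ∀ i, 0 < r i) {D : ℝ} (hD : 0 < D) (hs : Summable fun i => r i ^ D) :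
    dimH {x : X | {i | dist (y i) x ≤ r i}.Infinite} ≤ ENNReal.ofReal D := by
  have hs2 : Summable fun i => (2 * r i) ^ D := by
    refine (hs.mul_left (2 ^ D)).congr fun i => ?_
    rw [Real.mul_rpow (by norm_num) (hr i).le]
  have h3 := Pool.Agent.R425.MK.dimH_limsup
    (fun i => Metric.closedBall (y i) (r i)) (fun i => 2 * r i)
    (fun i => by have := hr i; positivity) (fun i => by
      refine Metric.ediam_le fun a ha b hb => ?_
      rw [Metric.mem_closedBall] at ha hb
      rw [edist_dist]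
      apply ENNReal.ofReal_le_ofReal
      have := dist_triangle_right a b (y i)
      linarith) hD hs2
  refine le_trans (dimH_mono ?_) h3
  intro z hz
  simp only [Set.mem_ofPred_eq] at hz ⊢
  refine hz.mono fun q hq => ?_
  simp only [Set.mem_ofPred_eq, Metric.mem_closedBall] at hq ⊢
  rw [dist_comm]
  exact hq

/-- Balls with a convergent sum of the `m`-th powers of the radii: almost every point is in only
finitely many of them. -/
theorem ae_of_summable {X : Type} [MetricSpace X] [MeasurableSpace X] (μ : Measure X)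
    {C₀ m : ℝ} (hμ : ∀ (x : X) (r : ℝ), 0 < r → μ (Metric.closedBall x r) ≤ ENNReal.ofReal (C₀ * r ^ m))
    {ι : Type} [Countable ι] (y : ι → X) (r : ι → ℝ) (hr : ∀ i, 0 < r i)
    (hs : Summable fun i => r i ^ m) :
    ∀ᵐ x ∂μ, {i | dist (y i) x ≤ r i}.Finite := by
  set C₁ : ℝ := max C₀ 0 with hC₁
  have hC₁0 : 0 ≤ C₁ := le_max_right _ _
  have h3 : Summable fun i => C₁ * r i ^ m := hs.mul_left C₁
  have h4 : (∑' i, μ (Metric.closedBall (y i) (r i))) ≠ ⊤ := by
    have hnn : ∀ i, 0 ≤ C₁ * r i ^ m := fun i => by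
      have := hr i
      positivity
    have h5 : (∑' i, ENNReal.ofReal (C₁ * r i ^ m)) ≠ ⊤ := by
      rw [← ENNReal.ofReal_tsum_of_nonneg hnn h3]
      exact ENNReal.ofReal_ne_top
    refine ne_top_of_le_ne_top h5 (ENNReal.tsum_le_tsum fun i => ?_)
    have := hr i
    refine (hμ _ _ this).trans (ENNReal.ofReal_le_ofReal ?_)
    have h6 : C₀ ≤ C₁ := le_max_left _ _
    gcongr
  have h5 := ae_finite_setOfPred_mem h4
  filter_upwards [h5] with ξ hξ
  refine hξ.subset fun i hi => ?_
  simp only [Set.mem_ofPred_eq, Metric.mem_closedBall] at hi ⊢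
  rw [dist_comm]
  exact hi

end Pool.Agent.Helper93.ZP
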